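import Pool.Agent.Lib.H53Toric.Weil

/-!
# A common form over `ℚ` of the `l`-adic monodromy groups: an independent Frobenius eigenvalue

`V = ℚ^ι` is a vector space with a nondegenerate alternating form of Gram matrix `ψ`, `G` is a
group (the absolute Galois group of the number field `F`) and `ρ l : G → GL(V ⊗ ℚ_l)`, one for
each prime `l`, are representations by symplectic similitudes (the rational Tate modules of an
abelian variety `A / F`).  The theorem says that the monodromy groups of all these representations
(and of their restrictions to all subgroups of finite index) are equal to `GSp(V, ψ)`, a connected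
reductive group over `ℚ` that does not depend on `l`, as soon as the characteristic polynomial
of one Frobenius element has a root `α` which is multiplicatively independent of the other ones.
The hypotheses on the representations are:

* `faltings`: every subgroup of finite index acts irreducibly on `V ⊗ K`, `K` an algebraic closure
  of `ℚ_l` (for the Tate module: Faltings, if the endomorphism ring of `A` over the algebraic
  closure of `F` is `ℤ`);
* `weil`: `σ` (a Frobenius element at a place of good reduction) has a characteristic polynomial
  with rational coefficients and a multiplier `q` which do not depend on `l`, and is semisimple;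
* `hα`: the root `α` of this polynomial is simple and no nonzero power of `α` belongs to the
  multiplicative group generated by `q` and the roots other than `α` and `q / α`.

No information on the inertia groups, on Hodge-Tate weights or on Hodge cocharacters is used.  The
proof is elementary and does not use any classification: the Zariski closure contains a one
parameter group of rank two; the Lie algebra is shown to be irreducible from the irreducibility of
the finite index subgroups by Dedekind independence of characters; an irreducible Lie algebra of
skew operators of a symplectic space containing a diagonalisable element of rank two is the full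
symplectic Lie algebra.
-/

set_option autoImplicit false

namespace Pool.Agent.H53Toric.Kept.IndependentRoot

open Pool.Agent.H53Toric Matrix Polynomial

/-- Let `ψ` be a nondegenerate alternating form over `ℚ`, `G` a group and `ρ l`, `l` prime, a
family of representations of `G` over `ℚ_l` by symplectic similitudes of `ψ` and `Λ` a set of
primes.  Suppose that for all `l` in `Λ` the restriction of `ρ l` to every subgroup of finite
index is absolutely irreducible, and that there is an element `σ` of `G` such that for `l` in `Λ`
the matrix `ρ l σ` is diagonalisable, with a multiplier `q` and a characteristic polynomial `F`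
over `ℚ` that do not depend on `l`, `q` not a root of unity.  If `F` has an independent root `α`,
then for every `l` in `Λ` and every subgroup `H` of finite index of `G` the algebraic monodromy
group of `ρ l` restricted to `H` is the group of symplectic similitudes of `ψ`. -/
theorem result {ι : Type*} [Fintype ι] [DecidableEq ι] {ψ : Matrix ι ι ℚ} (hψ : ψᵀ = -ψ)
    (hψ0 : ψ.det ≠ 0) {G : Type*} [Group G]
    (ρ : ∀ (l : ℕ) [Fact l.Prime], G →* Matrix.GeneralLinearGroup ι ℚ_[l])
    (Λ : Set ℕ)
    (sim : ∀ (l : ℕ) [Fact l.Prime], l ∈ Λ → ∀ τ : G, ∃ c : ℚ_[l],
      (ρ l τ).1ᵀ * ψ.map (algebraMap ℚ ℚ_[l]) * (ρ l τ).1 = c • ψ.map (algebraMap ℚ ℚ_[l]))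
    (faltings : ∀ (l : ℕ) [Fact l.Prime], l ∈ Λ → ∀ H : Subgroup G, H.FiniteIndex →
      ∀ W : Submodule (AlgebraicClosure ℚ_[l]) (ι → AlgebraicClosure ℚ_[l]),
        (∀ s ∈ img (AlgebraicClosure ℚ_[l]) (ρ l) H, ∀ w ∈ W, s *ᵥ w ∈ W) → W = ⊥ ∨ W = ⊤)
    (σ : G) (q : ℚ) (hq : ∀ n : ℕ, n ≠ 0 → q ^ n ≠ 1) (F : ℚ[X])
    (weil : ∀ (l : ℕ) [Fact l.Prime], l ∈ Λ →
      (ρ l σ).1.charpoly = F.map (algebraMap ℚ ℚ_[l]) ∧
      (ρ l σ).1ᵀ * ψ.map (algebraMap ℚ ℚ_[l]) * (ρ l σ).1 =
        algebraMap ℚ ℚ_[l] q • ψ.map (algebraMap ℚ ℚ_[l]) ∧
      Diagonalisable ((ρ l σ).1.map (algebraMap ℚ_[l] (AlgebraicClosure ℚ_[l]))))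
    (α : (AlgebraicClosure ℚ)ˣ) (hα : IndepRoot F q α) :
    ∀ (l : ℕ) [Fact l.Prime], l ∈ Λ → ∀ H : Subgroup G, H.FiniteIndex →
      monodromy (AlgebraicClosure ℚ_[l]) (ρ l) H = simil (AlgebraicClosure ℚ_[l]) ψ := by
  intro l _ hl H hH
  have : CharZero (AlgebraicClosure ℚ_[l]) := inferInstance
  obtain ⟨h1, h2, h3⟩ := weil l hl
  exact monodromy_weil hψ hψ0 (ρ l) (sim l hl) (faltings l hl) hq h2 h1 h3 hα H hH

end Pool.Agent.H53Toric.Kept.IndependentRoot
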